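import Mathlib

namespace Pool.Agent.Results.MP_b60c25_lc.DiamondConjectureFails

/-- The global map of the range-2 automaton with local rule `f`. -/
def globalMap {S : Type} (f : S → S → S) (c : ℤ → S) : ℤ → S := fun p => f (c p) (c (p + 1))

/-- The image of a finite word. -/
def image {S : Type} (f : S → S → S) {m : ℕ} (w : Fin (m + 1) → S) : Fin m → S :=
  fun i => f (w i.castSucc) (w i.succ)

/-- `w = p c_1 ⋯ c_l s` and `w' = p c'_1 ⋯ c'_l s` form a diamond of length `l` of `f`. -/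
def IsDiamond {S : Type} (f : S → S → S) (l : ℕ) (w w' : Fin (l + 2) → S) : Prop :=
  1 ≤ l ∧ w 0 = w' 0 ∧ w (Fin.last (l + 1)) = w' (Fin.last (l + 1)) ∧
    image f w = image f w' ∧ ∃ i : Fin l, w i.castSucc.succ ≠ w' i.castSucc.succ

/-- The least length of a diamond. -/
noncomputable def delta {S : Type} (f : S → S → S) : ℕ :=
  sInf {l | ∃ w w' : Fin (l + 2) → S, IsDiamond f l w w'}

/-- `D(n)`: the maximum of `δ(G)` over all non-surjective range-2 automata with `n` states. -/
noncomputable def D (n : ℕ) : ℕ :=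
  sSup {d | ∃ f : Fin n → Fin n → Fin n, ¬ Function.Surjective (globalMap f) ∧ delta f = d}

/-! ### General lemmas -/

/-- A potential function bounds the length of all diamonds from below. -/
theorem le_of_isDiamond {S : Type} (f : S → S → S) (Φ : S → S → ℕ) (L : ℕ)
    (h1 : ∀ p x y, x ≠ y → f p x = f p y → Φ x y ≤ 1)
    (h2 : ∀ x y a b, x ≠ y → a ≠ b → f x a = f y b → Φ a b ≤ Φ x y + 1)
    (h3 : ∀ x y s, x ≠ y → f x s = f y s → L ≤ Φ x y)
    (l : ℕ) (w w' : Fin (l + 2) → S) (hd : IsDiamond f l w w') : L ≤ l := by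
  obtain ⟨hl, h0, hlast, himg, i, hi⟩ := hd
  -- extend to functions on ℕ
  let v : ℕ → S := fun j => if h : j < l + 2 then w ⟨j, h⟩ else w 0
  let v' : ℕ → S := fun j => if h : j < l + 2 then w' ⟨j, h⟩ else w' 0
  have hv : ∀ j (h : j < l + 2), v j = w ⟨j, h⟩ := fun j h => by simp [v, h]
  have hv' : ∀ j (h : j < l + 2), v' j = w' ⟨j, h⟩ := fun j h => by simp [v', h]
  have hstep : ∀ j, j < l + 1 → f (v j) (v (j + 1)) = f (v' j) (v' (j + 1)) := by
    intro j hj
    have := congrFun himg ⟨j, hj⟩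
    simp only [image, Fin.castSucc_mk, Fin.succ_mk] at this
    rw [hv j (by omega), hv (j + 1) (by omega), hv' j (by omega), hv' (j + 1) (by omega)]
    exact this
  have hv0 : v 0 = v' 0 := by
    rw [hv 0 (by omega), hv' 0 (by omega)]; exact h0
  have hvl : v (l + 1) = v' (l + 1) := by
    rw [hv (l + 1) (by omega), hv' (l + 1) (by omega)]; exact hlast
  have hvi : v (i.1 + 1) ≠ v' (i.1 + 1) := by
    have := i.2
    rw [hv (i.1 + 1) (by omega), hv' (i.1 + 1) (by omega)]; exact hi
  -- the potential grows slowly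
  have key : ∀ j, j ≤ l → v j = v' j ∨ Φ (v j) (v' j) ≤ j := by
    intro j
    induction j with
    | zero => intro _; left; exact hv0
    | succ j ih =>
      intro hj
      by_cases he : v (j + 1) = v' (j + 1)
      · left; exact he
      · right
        have hs := hstep j (by omega)
        rcases ih (by omega) with h | h
        · have := h1 (v j) _ _ he (by rw [hs, h])
          omega
        · by_cases he' : v j = v' j
          · have := h1 (v j) _ _ he (by rw [hs, he'])
            omega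
          · have := h2 _ _ _ _ he' he hs
            omega
  -- the first position after `i + 1` where the words agree again
  have hex : ∃ j, i.1 + 1 < j ∧ v j = v' j := ⟨l + 1, by have := i.2; omega, hvl⟩
  classical
  have hj := Nat.find_spec hex
  set j := Nat.find hex with hjdef
  have hjl : j ≤ l + 1 := Nat.find_min' hex ⟨by have := i.2; omega, hvl⟩
  obtain ⟨k, hk⟩ : ∃ k, j = k + 1 := ⟨j - 1, by omega⟩
  have hne : v k ≠ v' k := by
    rcases Nat.lt_or_ge (i.1 + 1) k with h | h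
    · intro he
      exact Nat.find_min hex (show k < Nat.find hex by omega) ⟨h, he⟩
    · have : k = i.1 + 1 := by omega
      rw [this]; exact hvi
  have hs := hstep k (by omega)
  have h4 : L ≤ Φ (v k) (v' k) := by
    apply h3 _ _ (v (k + 1)) hne
    rw [hs]
    have := hj.2
    rw [hk] at this
    rw [this]
  rcases key k (by omega) with h | h
  · exact absurd h hne
  · omega

/-- A finite word is an orphan: the sets of possible last letters of its preimages become
empty. -/
def reach {S : Type} [DecidableEq S] [Fintype S] (f : S → S → S) : List S → Finset S → Finset S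
  | [], A => A
  | c :: u, A => reach f u (Finset.univ.filter fun t => ∃ s ∈ A, f s t = c)

theorem mem_reach {S : Type} [DecidableEq S] [Fintype S] (f : S → S → S) (u : List S)
    (A : Finset S) (c : ℤ → S) (p : ℤ) (hp : c p ∈ A)
    (hc : ∀ i : ℕ, ∀ h : i < u.length, f (c (p + i)) (c (p + i + 1)) = u[i]) :
    c (p + u.length) ∈ reach f u A := by
  induction u generalizing A p with
  | nil => simpa [reach] using hp
  | cons a u ih =>
    unfold reach
    have h0 := hc 0 (by simp)
    simp only [Nat.cast_zero, add_zero, List.getElem_cons_zero] at h0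
    have := ih (Finset.univ.filter fun t => ∃ s ∈ A, f s t = a) (p + 1)
      (by simp only [Finset.mem_filter, Finset.mem_univ, true_and]; exact ⟨c p, hp, h0⟩)
      (by
        intro i hi
        have := hc (i + 1) (by simpa using hi)
        simp only [List.getElem_cons_succ] at this
        rw [← this]
        congr 2 <;> push_cast <;> ring)
    have e : p + ((a :: u).length : ℤ) = p + 1 + (u.length : ℤ) := by
      simp only [List.length_cons]; push_cast; ring
    rw [e]
    exact this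

theorem not_surjective {S : Type} [DecidableEq S] [Fintype S] [Inhabited S] (f : S → S → S)
    (u : List S) (hu : reach f u Finset.univ = ∅) : ¬ Function.Surjective (globalMap f) := by
  intro hs
  obtain ⟨c, hc⟩ := hs (fun p => u.getD p.toNat default)
  have := mem_reach f u Finset.univ c 0 (Finset.mem_univ _) (by
    intro i hi
    have := congrFun hc (i : ℤ)
    simp only [globalMap, Int.toNat_natCast] at this
    rw [zero_add, this, List.getD_eq_getElem _ _ hi])
  rw [hu] at this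
  simp at this

theorem le_D {n L : ℕ} (f : Fin n → Fin n → Fin n) (hs : ¬ Function.Surjective (globalMap f))
    (hex : ∃ l, ∃ w w' : Fin (l + 2) → Fin n, IsDiamond f l w w')
    (h : ∀ l, ∀ w w' : Fin (l + 2) → Fin n, IsDiamond f l w w' → L ≤ l) : L ≤ D n := by
  have h1 : L ≤ delta f := by
    unfold delta
    have := Nat.sInf_mem (s := {l | ∃ w w' : Fin (l + 2) → Fin n, IsDiamond f l w w'}) hex
    obtain ⟨w, w', hw⟩ := this
    exact h _ w w' hw
  refine h1.trans ?_
  unfold D
  apply le_csSup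
  · have hfin : {d | ∃ f : Fin n → Fin n → Fin n, ¬ Function.Surjective (globalMap f) ∧
        delta f = d}.Finite := by
      apply (Set.finite_range (fun f : Fin n → Fin n → Fin n => delta f)).subset
      rintro d ⟨g, _, hg⟩
      exact ⟨g, hg⟩
    exact hfin.bddAbove
  · exact ⟨f, hs, rfl⟩

/-! ### The automata -/

/-- The local rule of an automaton with 4 states. -/
def f4 : Fin 4 → Fin 4 → Fin 4 :=
  ![![0, 2, 1, 3],
    ![2, 3, 3, 0],
    ![0, 1, 1, 2],
    ![3, 0, 2, 1]]

/-- The potential function. -/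
def Phi4 : Fin 4 → Fin 4 → ℕ :=
  ![![0, 3, 5, 2],
    ![3, 0, 1, 4],
    ![5, 1, 0, 3],
    ![2, 4, 3, 0]]

theorem orphan4 : reach f4 [0, 1, 0, 1, 3] Finset.univ = ∅ := by decide +kernel

theorem bound4 (l : ℕ) (w w' : Fin (l + 2) → Fin 4) (h : IsDiamond f4 l w w') : 5 ≤ l :=
  le_of_isDiamond f4 Phi4 5 (by decide +kernel) (by decide +kernel) (by decide +kernel) l w w' h

theorem diamond4 : IsDiamond f4 5 ![1, 1, 0, 0, 3, 0, 0] ![1, 2, 3, 1, 1, 2, 0] := by
  refine ⟨by norm_num, by decide +kernel, by decide +kernel, by decide +kernel, by decide +kernel⟩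

theorem D4 : 5 ≤ D 4 :=
  le_D f4 (not_surjective f4 _ orphan4) ⟨_, _, _, diamond4⟩ bound4

/-- The local rule of an automaton with 6 states. -/
def f6 : Fin 6 → Fin 6 → Fin 6 :=
  ![![0, 0, 3, 5, 4, 2],
    ![1, 1, 4, 2, 3, 5],
    ![2, 5, 3, 4, 0, 1],
    ![4, 3, 5, 2, 1, 0],
    ![5, 2, 4, 1, 3, 0],
    ![3, 4, 2, 0, 5, 1]]

/-- The potential function. -/
def Phi6 : Fin 6 → Fin 6 → ℕ :=
  ![![0, 1, 6, 4, 4, 5],
    ![1, 0, 4, 6, 6, 5],
    ![6, 4, 0, 3, 2, 6],
    ![4, 6, 3, 0, 6, 2],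
    ![4, 6, 2, 6, 0, 3],
    ![5, 5, 6, 2, 3, 0]]

theorem orphan6 : reach f6 [0, 2, 2, 3, 0, 2, 0] Finset.univ = ∅ := by decide +kernel

theorem bound6 (l : ℕ) (w w' : Fin (l + 2) → Fin 6) (h : IsDiamond f6 l w w') : 6 ≤ l :=
  le_of_isDiamond f6 Phi6 6 (by decide +kernel) (by decide +kernel) (by decide +kernel) l w w' h

theorem diamond6 : IsDiamond f6 6 ![0, 0, 2, 3, 0, 0, 1, 3] ![0, 1, 4, 2, 3, 5, 3, 3] := by
  refine ⟨by norm_num, by decide +kernel, by decide +kernel, by decide +kernel, by decide +kernel⟩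

theorem D6 : 6 ≤ D 6 :=
  le_D f6 (not_surjective f6 _ orphan6) ⟨_, _, _, diamond6⟩ bound6

/-- The local rule of an automaton with 8 states. -/
def f8 : Fin 8 → Fin 8 → Fin 8 :=
  ![![3, 3, 7, 5, 2, 1, 4, 6],
    ![0, 0, 5, 7, 1, 2, 6, 4],
    ![0, 3, 4, 7, 1, 2, 6, 5],
    ![3, 0, 7, 4, 2, 1, 5, 6],
    ![2, 1, 4, 6, 3, 0, 7, 5],
    ![1, 2, 6, 4, 0, 3, 5, 7],
    ![1, 2, 6, 5, 7, 3, 4, 0],
    ![2, 1, 5, 6, 3, 0, 7, 4]]

/-- The potential function. -/
def Phi8 : Fin 8 → Fin 8 → ℕ :=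
  ![![0, 1, 8, 8, 5, 7, 8, 5],
    ![1, 0, 8, 8, 6, 5, 8, 8],
    ![8, 8, 0, 2, 8, 8, 4, 7],
    ![8, 8, 2, 0, 5, 8, 7, 4],
    ![5, 6, 8, 5, 0, 2, 3, 8],
    ![7, 5, 8, 8, 2, 0, 8, 3],
    ![8, 8, 4, 7, 3, 8, 0, 2],
    ![5, 8, 7, 4, 8, 3, 2, 0]]

theorem orphan8 : reach f8 [4, 0, 4, 0, 4, 0, 3, 1, 0] Finset.univ = ∅ := by decide +kernel

theorem bound8 (l : ℕ) (w w' : Fin (l + 2) → Fin 8) (h : IsDiamond f8 l w w') : 8 ≤ l :=
  le_of_isDiamond f8 Phi8 8 (by decide +kernel) (by decide +kernel) (by decide +kernel) l w w' h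

theorem diamond8 : IsDiamond f8 8 ![0, 0, 6, 4, 2, 0, 1, 3, 1, 2] ![0, 1, 7, 6, 6, 7, 4, 6, 7, 2] := by
  refine ⟨by norm_num, by decide +kernel, by decide +kernel, by decide +kernel, by decide +kernel⟩

theorem D8 : 8 ≤ D 8 :=
  le_D f8 (not_surjective f8 _ orphan8) ⟨_, _, _, diamond8⟩ bound8

/-- **Main result.**  `D(4) ≥ 5`, `D(6) ≥ 6` and `D(8) ≥ 8`; in particular, the conjecture
`D(n) = n - 1` for all `n ≥ 2` fails. -/
theorem result : (5 ≤ D 4 ∧ 6 ≤ D 6 ∧ 8 ≤ D 8) ∧ ¬ ∀ n ≥ 2, D n = n - 1 := by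
  refine ⟨⟨D4, D6, D8⟩, fun h => ?_⟩
  have h1 := h 4 (by norm_num)
  have h2 := D4
  omega

end Pool.Agent.Results.MP_b60c25_lc.DiamondConjectureFails
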